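import Mathlib

set_option autoImplicit false

namespace Pool.Agent.KS6_69.ZB
open MeasureTheory Set Polynomial Metric

lemma sos (u v : ℝ) : 8/3 + 2 * ((u + v) ^ 2 + ((101/100 - u) / 4 + (101/100 - v) / 4) ^ 2) ≤
    568/100 * (27/100 * (((1 - u) ^ 2 + ((101/100 - u) / 4) ^ 2) *
      ((1 - v) ^ 2 + ((101/100 - v) / 4) ^ 2)) + 73/100 *
      (((-1 - u) ^ 2 + ((101/100 - u) / 4) ^ 2) * ((-1 - v) ^ 2 + ((101/100 - v) / 4) ^ 2))) := by
  rw [← sub_nonneg]
  have : (0:ℝ) ≤ (20519/3200) * ((1/1)*u*v + (127/340)*u + (127/340)*v + (13856/20519)) ^ 2 +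
      (6800227/2000000) * ((1/1)*u + (108668143/108803632)*v + (11240021089/36993234880)) ^ 2 +
      (1178601332919/139268648960000) * ((1/1)*v + (11240021089/73940403500)) ^ 2 +
      (2159998481915853824891/171352448687040000000000) * ((1/1)) ^ 2 := by positivity
  refine this.trans (le_of_eq ?_)
  ring

noncomputable def D (a b : ℂ) : ℝ := sSup ((fun x : ℝ => ‖(x - a) * (x - b)‖) '' Icc (-1) 1)
noncomputable def N (a b : ℂ) : ℝ := 8/3 + 2 * ‖a + b‖ ^ 2

lemma le_D (a b : ℂ) {x : ℝ} (hx : x ∈ Icc (-1:ℝ) 1) : ‖(x - a) * (x - b)‖ ≤ D a b :=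
  le_csSup (isCompact_Icc.image (by fun_prop)).bddAbove ⟨x, hx, rfl⟩

lemma D_le (a b : ℂ) {C : ℝ} (h : ∀ x ∈ Icc (-1:ℝ) 1, ‖(x - a) * (x - b)‖ ≤ C) : D a b ≤ C :=
  csSup_le (Nonempty.image _ ⟨0, by norm_num⟩) (by rintro _ ⟨x, hx, rfl⟩; exact h x hx)

lemma D_cont : Continuous fun p : ℂ × ℂ => D p.1 p.2 :=
  IsCompact.continuous_sSup (f := fun (p : ℂ × ℂ) (x : ℝ) => ‖(x - p.1) * (x - p.2)‖)
    isCompact_Icc (by unfold Function.HasUncurry.uncurry; fun_prop)

lemma sq_D (a b : ℂ) {x : ℝ} (hx : x ∈ Icc (-1:ℝ) 1) :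
    ((x - a.re) ^ 2 + a.im ^ 2) * ((x - b.re) ^ 2 + b.im ^ 2) ≤ D a b ^ 2 := by
  have := pow_le_pow_left₀ (norm_nonneg _) (le_D a b hx) 2
  rw [norm_mul, mul_pow, Complex.sq_norm, Complex.sq_norm, Complex.normSq_apply,
    Complex.normSq_apply] at this
  simp only [Complex.sub_re, Complex.sub_im, Complex.ofReal_re, Complex.ofReal_im] at this
  nlinarith

lemma N_eq (a b : ℂ) : N a b = 8/3 + 2 * ((a.re + b.re) ^ 2 + (a.im + b.im) ^ 2) := by
  rw [N, Complex.sq_norm, Complex.normSq_apply]; simp; ring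

lemma far (a b : ℂ) (hb : 10 ≤ ‖b‖) : N a b ≤ 568/100 * D a b ^ 2 := by
  have h1 := sq_D a b (x := 1) (by norm_num)
  have h2 := sq_D a b (x := -1) (by norm_num)
  have h3 : 100 ≤ b.re ^ 2 + b.im ^ 2 := by
    have := pow_le_pow_left₀ (by norm_num) hb 2
    rw [Complex.sq_norm, Complex.normSq_apply] at this
    nlinarith
  have h4 : 3/4 * (b.re ^ 2 + b.im ^ 2) ≤ (1 - b.re) ^ 2 + b.im ^ 2 := by
    nlinarith [sq_nonneg (b.re - 10), sq_nonneg b.im]
  have h5 : 3/4 * (b.re ^ 2 + b.im ^ 2) ≤ (-1 - b.re) ^ 2 + b.im ^ 2 := by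
    nlinarith [sq_nonneg (b.re + 10), sq_nonneg b.im]
  have h6 := mul_le_mul_of_nonneg_left h4 (show 0 ≤ (1 - a.re) ^ 2 + a.im ^ 2 by positivity)
  have h7 := mul_le_mul_of_nonneg_left h5 (show 0 ≤ (-1 - a.re) ^ 2 + a.im ^ 2 by positivity)
  have h8 := mul_le_mul_of_nonneg_left h3 (show 0 ≤ a.re ^ 2 + a.im ^ 2 by positivity)
  rw [N_eq]
  nlinarith [sq_nonneg (a.re - b.re), sq_nonneg (a.im - b.im), sq_nonneg a.re, sq_nonneg a.im]

lemma D_comm (a b : ℂ) : D a b = D b a := by simp [D, mul_comm]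
lemma N_comm (a b : ℂ) : N a b = N b a := by simp [N, add_comm]

lemma line (a b : ℂ) (ha : 4 * |a.im| + a.re = 101/100) (hb : 4 * |b.im| + b.re = 101/100) :
    N a b ≤ 568/100 * D a b ^ 2 := by
  have h1 := sq_D a b (x := 1) (by norm_num)
  have h2 := sq_D a b (x := -1) (by norm_num)
  have e1 : |a.im| = (101/100 - a.re) / 4 := by linarith
  have e2 : |b.im| = (101/100 - b.re) / 4 := by linarith
  have h3 := sos a.re b.re
  rw [← e1, ← e2, sq_abs, sq_abs] at h3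
  have h4 : (a.im + b.im) ^ 2 ≤ (|a.im| + |b.im|) ^ 2 := by
    rw [← sq_abs (a.im + b.im)]
    exact pow_le_pow_left₀ (abs_nonneg _) (abs_add_le _ _) 2
  rw [N_eq]
  linarith

lemma good : 568/100 * D ⟨643/1000, -1/5⟩ ⟨-91/100, -12/25⟩ ^ 2 <
    N ⟨643/1000, -1/5⟩ ⟨-91/100, -12/25⟩ := by
  have h : D ⟨643/1000, -1/5⟩ ⟨-91/100, -12/25⟩ ≤ 81/100 := D_le _ _ fun x hx => by
    refine le_of_pow_le_pow_left₀ (n := 2) (by norm_num) (by norm_num) ?_
    rw [norm_mul, mul_pow, Complex.sq_norm, Complex.sq_norm, Complex.normSq_apply,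
      Complex.normSq_apply]
    simp only [Complex.sub_re, Complex.sub_im, Complex.ofReal_re, Complex.ofReal_im]
    have a := mul_nonneg (sub_nonneg.mpr hx.1) (sub_nonneg.mpr hx.2)
    nlinarith [mul_nonneg a (sq_nonneg (x + 1/4)), hx.1, hx.2]
  have h0 : 0 ≤ D ⟨643/1000, -1/5⟩ ⟨-91/100, -12/25⟩ :=
    (norm_nonneg _).trans (le_D _ _ (x := 0) (by norm_num))
  rw [N_eq]
  nlinarith

def G : Set ℂ := {z | 4 * |z.im| + z.re < 101/100} ∩ ball 0 10

lemma G_open : IsOpen G := (isOpen_lt (by fun_prop) (by fun_prop)).inter isOpen_ball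

lemma G_conv : Convex ℝ G := by
  refine Convex.inter (fun z hz w hw s t hs ht hst => ?_) (convex_ball _ _)
  simp only [mem_setOf_eq, Complex.add_im, Complex.add_re, Complex.smul_im, Complex.smul_re,
    smul_eq_mul] at hz hw ⊢
  have a := abs_add_le (s * z.im) (t * w.im)
  rw [abs_mul, abs_mul, abs_of_nonneg hs, abs_of_nonneg ht] at a
  rcases hs.eq_or_lt with rfl | hs'
  · rw [zero_add] at hst; subst hst; simpa using hw
  · nlinarith [mul_lt_mul_of_pos_left hz hs', mul_le_mul_of_nonneg_left hw.le ht]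

lemma G_seg (x : ℝ) (hx : x ∈ Icc (-1:ℝ) 1) : (x:ℂ) ∈ G := by
  refine ⟨by simp; linarith [hx.2], ?_⟩
  rw [mem_ball_zero_iff, Complex.norm_real, Real.norm_eq_abs, abs_lt]
  constructor <;> linarith [hx.1, hx.2]

lemma G_fr {z : ℂ} (hz : z ∈ frontier G) : 4 * |z.im| + z.re = 101/100 ∨ 10 ≤ ‖z‖ := by
  rcases frontier_inter_subset _ _ hz with h | h
  · exact Or.inl (frontier_lt_subset_eq (f := fun z : ℂ => 4 * |z.im| + z.re) (by fun_prop)
      (by fun_prop) h.1)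
  · have := h.2
    rw [frontier_ball _ (by norm_num), mem_sphere_zero_iff_norm] at this
    exact Or.inr this.ge

lemma D_pos {a b : ℂ} (ha : a ∉ G) (hb : b ∉ G) : 0 < D a b := by
  refine lt_of_lt_of_le (norm_pos_iff.mpr (mul_ne_zero ?_ ?_)) (le_D a b (x := 0) (by norm_num))
  · intro h
    exact ha ((sub_eq_zero.mp h) ▸ G_seg 0 (by norm_num))
  · intro h
    exact hb ((sub_eq_zero.mp h) ▸ G_seg 0 (by norm_num))

lemma ext : ∃ a ∉ G, ∃ b ∉ G, 568/100 * D a b ^ 2 < N a b ∧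
    ∀ a' ∉ G, ∀ b' ∉ G, N a' b' / D a' b' ^ 2 ≤ N a b / D a b ^ 2 := by
  have hK : IsCompact (closedBall (0:ℂ) 10 \ G) := (isCompact_closedBall _ _).diff G_open
  have m1 : (⟨643/1000, -1/5⟩ : ℂ) ∈ closedBall (0:ℂ) 10 \ G := by
    refine ⟨?_, fun h => ?_⟩
    · rw [mem_closedBall_zero_iff]
      refine (Complex.norm_le_abs_re_add_abs_im _).trans (by norm_num [abs_of_pos, abs_of_neg])
    · have := h.1
      norm_num [abs_of_pos, abs_of_neg] at this
  have m2 : (⟨-91/100, -12/25⟩ : ℂ) ∈ closedBall (0:ℂ) 10 \ G := by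
    refine ⟨?_, fun h => ?_⟩
    · rw [mem_closedBall_zero_iff]
      refine (Complex.norm_le_abs_re_add_abs_im _).trans (by norm_num [abs_of_pos, abs_of_neg])
    · have := h.1
      norm_num [abs_of_pos, abs_of_neg] at this
  obtain ⟨p, hp, hmax⟩ := (hK.prod hK).exists_isMaxOn
    (f := fun p : ℂ × ℂ => N p.1 p.2 / D p.1 p.2 ^ 2) ⟨(_, _), m1, m2⟩
    (ContinuousOn.div (by unfold N; fun_prop) (D_cont.pow 2).continuousOn
      fun p hp => (pow_pos (D_pos hp.1.2 hp.2.2) 2).ne')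
  have g : 568/100 < N p.1 p.2 / D p.1 p.2 ^ 2 :=
    lt_of_lt_of_le ((lt_div_iff₀ (pow_pos (D_pos m1.2 m2.2) 2)).mpr good)
      (hmax (a := (_, _)) ⟨m1, m2⟩)
  refine ⟨p.1, hp.1.2, p.2, hp.2.2, (lt_div_iff₀ (pow_pos (D_pos hp.1.2 hp.2.2) 2)).mp g,
    fun a ha b hb => ?_⟩
  have q := pow_pos (D_pos ha hb) 2
  rcases le_total 10 ‖b‖ with h | h
  · exact ((div_le_iff₀ q).mpr (far a b h)).trans g.le
  rcases le_total 10 ‖a‖ with h' | h'
  · refine ((div_le_iff₀ q).mpr ?_).trans g.le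
    rw [N_comm, D_comm]; exact far b a h'
  exact hmax (a := (a, b)) ⟨⟨mem_closedBall_zero_iff.mpr h', ha⟩, mem_closedBall_zero_iff.mpr h, hb⟩

lemma n2 (l s : ℂ) : eLpNorm (fun x : ℝ => l * (2 * x - s)) 2 (volume.restrict (Icc (-1:ℝ) 1)) =
    ENNReal.ofReal (‖l‖ * √(8/3 + 2 * ‖s‖ ^ 2)) := by
  have hc : Continuous fun x : ℝ => l * (2 * x - s) := by fun_prop
  obtain ⟨C, hC⟩ := isCompact_Icc.exists_bound_of_continuousOn (hc.continuousOn (s := Icc (-1) 1))
  have hm : MemLp (fun x : ℝ => l * (2 * x - s)) 2 (volume.restrict (Icc (-1:ℝ) 1)) :=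
    MemLp.of_bound hc.aestronglyMeasurable C
      ((ae_restrict_iff' measurableSet_Icc).mpr (Filter.Eventually.of_forall hC))
  rw [hm.eLpNorm_eq_integral_rpow_norm (by norm_num) (by norm_num)]
  congr 1
  have e : ∀ x : ℝ, ‖l * (2 * x - s)‖ ^ (2:ENNReal).toReal =
      ‖l‖ ^ 2 * 4 * x ^ 2 - ‖l‖ ^ 2 * 4 * s.re * x + ‖l‖ ^ 2 * ‖s‖ ^ 2 := fun x => by
    rw [ENNReal.toReal_ofNat, Real.rpow_two, norm_mul, mul_pow, Complex.sq_norm (_ - s),
      Complex.sq_norm s, Complex.normSq_apply, Complex.normSq_apply]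
    simp
    ring
  simp_rw [e]
  rw [integral_Icc_eq_integral_Ioc, ← intervalIntegral.integral_of_le (by norm_num),
    intervalIntegral.integral_add (by apply Continuous.intervalIntegrable; fun_prop)
      (by apply Continuous.intervalIntegrable; fun_prop),
    intervalIntegral.integral_sub (by apply Continuous.intervalIntegrable; fun_prop)
      (by apply Continuous.intervalIntegrable; fun_prop),
    intervalIntegral.integral_const_mul, intervalIntegral.integral_const_mul, integral_pow,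
    integral_id, intervalIntegral.integral_const, ← Real.sqrt_sq (norm_nonneg l),
    ← Real.sqrt_mul (sq_nonneg _), Real.sqrt_sq (norm_nonneg l), Real.sqrt_eq_rpow]
  congr 1
  · simp only [smul_eq_mul]; ring
  · norm_num

lemma ninf (l a b : ℂ) : eLpNorm (fun x : ℝ => l * ((x - a) * (x - b))) ⊤
    (volume.restrict (Icc (-1:ℝ) 1)) = ENNReal.ofReal (‖l‖ * D a b) := by
  have up : eLpNorm (fun x : ℝ => l * ((x - a) * (x - b))) ⊤ (volume.restrict (Icc (-1:ℝ) 1)) ≤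
      ENNReal.ofReal (‖l‖ * D a b) := by
    rw [eLpNorm_exponent_top]
    refine eLpNormEssSup_le_of_ae_bound ((ae_restrict_iff' measurableSet_Icc).mpr
      (Filter.Eventually.of_forall fun x hx => ?_))
    rw [norm_mul]
    exact mul_le_mul_of_nonneg_left (le_D a b hx) (norm_nonneg _)
  refine le_antisymm up ?_
  have fin := (up.trans_lt ENNReal.ofReal_lt_top).ne
  rw [eLpNorm_exponent_top] at fin ⊢
  set C := eLpNormEssSup (fun x : ℝ => l * ((x - a) * (x - b))) (volume.restrict (Icc (-1:ℝ) 1))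
  have h := Measure.eqOn_Icc_of_ae_eq (μ := volume) (a := (-1:ℝ)) (b := 1)
    (f := fun x : ℝ => max ‖l * ((x - a) * (x - b))‖ C.toReal) (g := fun _ => C.toReal)
    (by norm_num) (by
      filter_upwards [ae_le_eLpNormEssSup (f := fun x : ℝ => l * ((x - a) * (x - b)))
        (μ := volume.restrict (Icc (-1:ℝ) 1))] with x hx
      rw [max_eq_right_iff, ← toReal_enorm]
      exact ENNReal.toReal_mono fin hx) (by fun_prop) (by fun_prop)
  rw [ENNReal.ofReal_le_iff_le_toReal fin]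
  by_cases hl : l = 0
  · simp [hl]
  have hl' := norm_pos_iff.mpr hl
  rw [← le_div_iff₀' hl']
  refine D_le a b fun x hx => ?_
  rw [le_div_iff₀' hl', ← norm_mul]
  exact max_eq_right_iff.mp (h hx)

lemma fac (Q : ℂ[X]) (h : Q.natDegree = 2) :
    ∃ l a b : ℂ, l ≠ 0 ∧ Q = C l * ((X - C a) * (X - C b)) := by
  have h0 : Q ≠ 0 := by rintro rfl; simp at h
  have hc := (IsAlgClosed.splits Q).natDegree_eq_card_roots
  obtain ⟨a, b, hab⟩ := Multiset.card_eq_two.mp (hc.symm.trans h)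
  refine ⟨Q.leadingCoeff, a, b, leadingCoeff_ne_zero.mpr h0, ?_⟩
  have := (IsAlgClosed.splits Q).eq_prod_roots
  rw [hab] at this
  simpa using this

lemma ratio (l a b : ℂ) (hl : l ≠ 0) (ha : a ∉ G) (hb : b ∉ G) :
    eLpNorm (fun x : ℝ => ((⇑derivative)^[1] (C l * ((X - C a) * (X - C b)))).eval (x : ℂ)) 2
      (volume.restrict (Icc (-1:ℝ) 1)) /
    eLpNorm (fun x : ℝ => (C l * ((X - C a) * (X - C b))).eval (x : ℂ)) ⊤
      (volume.restrict (Icc (-1:ℝ) 1)) = ENNReal.ofReal √(N a b / D a b ^ 2) := by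
  have e1 : (fun x : ℝ => ((⇑derivative)^[1] (C l * ((X - C a) * (X - C b)))).eval (x : ℂ)) =
      fun x : ℝ => l * (2 * x - (a + b)) := by
    funext x; simp; left; ring
  have e2 : (fun x : ℝ => (C l * ((X - C a) * (X - C b))).eval (x : ℂ)) =
      fun x : ℝ => l * ((x - a) * (x - b)) := by
    funext x; simp
  have hD := D_pos ha hb
  have hl' := norm_pos_iff.mpr hl
  rw [e1, e2, n2, ninf, ← ENNReal.ofReal_div_of_pos (by positivity),
    mul_div_mul_left _ _ hl'.ne', Real.sqrt_div' _ (sq_nonneg _), Real.sqrt_sq hD.le, N]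

end Pool.Agent.KS6_69.ZB
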